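import Pool.Agent.L5helper68.DH.Defs

/-!
# The union of two piecewise linear homeomorphisms (job J3 for helper68)
-/

namespace Pool.Agent.L5helper68.DH

open Set

theorem isPL_union {A B C D : Set (ℕ → ℝ)} (f : (A ∪ B : Set (ℕ → ℝ)) ≃ₜ (C ∪ D : Set (ℕ → ℝ)))
    (e : A ≃ₜ C) (e' : B ≃ₜ D)
    (h1 : ∀ x (hx : x ∈ A), (f ⟨x, Or.inl hx⟩ : ℕ → ℝ) = e ⟨x, hx⟩)
    (h2 : ∀ x (hx : x ∈ B), (f ⟨x, Or.inr hx⟩ : ℕ → ℝ) = e' ⟨x, hx⟩)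
    (he : IsPL e) (he' : IsPL e') : IsPL f := by
  obtain ⟨T, hT, hTf, hTA, hTa⟩ := he
  obtain ⟨T', hT', hTf', hTB, hTa'⟩ := he'
  refine ⟨T ∪ T', hT.union hT', ?_, ?_, ?_⟩
  · rintro t (ht | ht)
    · exact hTf t ht
    · exact hTf' t ht
  · rw [biUnion_union, ← hTA, ← hTB]
  · rintro t (ht | ht)
    · obtain ⟨a, ha⟩ := hTa t ht
      refine ⟨a, fun x hx => ?_⟩
      have hxA : (x : ℕ → ℝ) ∈ A := (Set.ext_iff.1 hTA x).2 (mem_biUnion ht hx)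
      have h := ha ⟨x, hxA⟩ hx
      rw [← h1 x hxA] at h
      exact h
    · obtain ⟨a, ha⟩ := hTa' t ht
      refine ⟨a, fun x hx => ?_⟩
      have hxB : (x : ℕ → ℝ) ∈ B := (Set.ext_iff.1 hTB x).2 (mem_biUnion ht hx)
      have h := ha ⟨x, hxB⟩ hx
      rw [← h2 x hxB] at h
      exact h

theorem plHomeo_union_of (homeo_union : ∀ {A B C D : Set (ℕ → ℝ)}, IsClosed A → IsClosed B →
      IsClosed C → IsClosed D → Disjoint A B → Disjoint C D → ∀ (e : A ≃ₜ C) (e' : B ≃ₜ D),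
      ∃ f : (A ∪ B : Set (ℕ → ℝ)) ≃ₜ (C ∪ D : Set (ℕ → ℝ)),
        (∀ x (hx : x ∈ A), (f ⟨x, Or.inl hx⟩ : ℕ → ℝ) = e ⟨x, hx⟩) ∧
        (∀ x (hx : x ∈ B), (f ⟨x, Or.inr hx⟩ : ℕ → ℝ) = e' ⟨x, hx⟩) ∧
        (∀ x (hx : x ∈ C), (f.symm ⟨x, Or.inl hx⟩ : ℕ → ℝ) = e.symm ⟨x, hx⟩) ∧
        (∀ x (hx : x ∈ D), (f.symm ⟨x, Or.inr hx⟩ : ℕ → ℝ) = e'.symm ⟨x, hx⟩))
    {A B C D : Set (ℕ → ℝ)} (hA : IsClosed A) (hB : IsClosed B) (hC : IsClosed C)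
    (hD : IsClosed D) (hAB : Disjoint A B) (hCD : Disjoint C D) (h : PLHomeo A C)
    (h' : PLHomeo B D) : PLHomeo (A ∪ B) (C ∪ D) := by
  obtain ⟨e, he, hes⟩ := h
  obtain ⟨e', he', hes'⟩ := h'
  obtain ⟨f, h1, h2, h3, h4⟩ := homeo_union hA hB hC hD hAB hCD e e'
  exact ⟨f, isPL_union f e e' h1 h2 he he', isPL_union f.symm e.symm e'.symm h3 h4 hes hes'⟩

end Pool.Agent.L5helper68.DH
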