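import Mathlib
import Pool.Agent.L5helper31.TG.Defs
import Pool.Agent.TH984.GB.Simplex

/-!
# The bathtub bound for the volume (job TG2 for helper31)
-/

set_option autoImplicit false

open MeasureTheory Finset

namespace Pool.Agent.L5helper31.TG

theorem meas_closed (ι : Type) [Fintype ι] (v : ℝ) :
    MeasurableSet {s : ι → ℝ | (∀ i, 0 ≤ s i) ∧ ∑ i, s i ≤ v} := by
  have h1 : MeasurableSet {s : ι → ℝ | ∀ i, 0 ≤ s i} := by
    rw [show {s : ι → ℝ | ∀ i, 0 ≤ s i} = ⋂ i, {s | 0 ≤ s i} by ext; simp]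
    exact MeasurableSet.iInter fun i => measurableSet_le measurable_const (measurable_pi_apply i)
  have h2 : MeasurableSet {s : ι → ℝ | ∑ i, s i ≤ v} :=
    measurableSet_le (Finset.measurable_sum _ fun i _ => measurable_pi_apply i) measurable_const
  exact h1.inter h2

theorem vol_closed (ι : Type) [Fintype ι] (v : ℝ) (hv : 0 ≤ v) :
    volume {s : ι → ℝ | (∀ i, 0 ≤ s i) ∧ ∑ i, s i ≤ v} =
      ENNReal.ofReal (v ^ Fintype.card ι / (Fintype.card ι).factorial) := by
  classical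
  have e : Fin (Fintype.card ι) ≃ ι := (Fintype.equivFin ι).symm
  have hmp := volume_measurePreserving_piCongrLeft (fun _ : ι => ℝ) e
  have hms := meas_closed ι v
  rw [← Pool.Agent.TH984.GBS.vol_Sc (Fintype.card ι) v hv,
    ← hmp.measure_preimage hms.nullMeasurableSet]
  congr 1
  ext x
  have happ : ∀ i, (MeasurableEquiv.piCongrLeft (fun _ : ι => ℝ) e) x (e i) = x i := by
    intro i
    exact Equiv.piCongrLeft_apply_apply (P := fun _ : ι => ℝ) e x i
  have hsum : ∑ i, (MeasurableEquiv.piCongrLeft (fun _ : ι => ℝ) e) x i = ∑ i, x i := by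
    rw [← Equiv.sum_comp e]
    exact Finset.sum_congr rfl fun i _ => happ i
  simp only [Set.mem_preimage, Set.mem_ofPred_eq, Pool.Agent.TH984.GBS.Sc]
  rw [hsum]
  constructor
  · rintro ⟨h1, h2⟩
    exact ⟨fun i => by rw [← happ i]; exact h1 (e i), h2⟩
  · rintro ⟨h1, h2⟩
    refine ⟨fun i => ?_, h2⟩
    obtain ⟨j, rfl⟩ := e.surjective i
    rw [happ j]
    exact h1 j

theorem T_fin (n : ℕ) (r : ℝ) (hr : 0 ≤ r) :
    ∫⁻ w : Fin n → ℝ, Set.indicator {w | ∀ i, 0 ≤ w i} (fun w => ENNReal.ofReal (r - ∑ i, w i)) w =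
      ENNReal.ofReal (r ^ (n + 1) / (n + 1).factorial) := by
  have hA : MeasurableSet {q : ℝ × (Fin n → ℝ) | 0 ≤ q.1 ∧ (∀ i, 0 ≤ q.2 i) ∧
      q.1 + ∑ i, q.2 i ≤ r} := by
    have h : {q : ℝ × (Fin n → ℝ) | 0 ≤ q.1 ∧ (∀ i, 0 ≤ q.2 i) ∧
      q.1 + ∑ i, q.2 i ≤ r} = {q | 0 ≤ q.1} ∩ ((⋂ i, {q : ℝ × (Fin n → ℝ) | 0 ≤ q.2 i}) ∩
        {q | q.1 + ∑ i, q.2 i ≤ r}) := by
      ext q
      simp
    rw [h]
    refine (measurableSet_le measurable_const measurable_fst).inter
      ((MeasurableSet.iInter fun i => ?_).inter ?_)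
    · exact measurableSet_le measurable_const (by fun_prop)
    · exact measurableSet_le (by fun_prop) measurable_const
  have h1 : volume (Pool.Agent.TH984.GBS.Sc (n + 1) r) =
      volume {q : ℝ × (Fin n → ℝ) | 0 ≤ q.1 ∧ (∀ i, 0 ≤ q.2 i) ∧ q.1 + ∑ i, q.2 i ≤ r} := by
    rw [← (volume_preserving_piFinSuccAbove (fun _ : Fin (n + 1) => ℝ) 0).measure_preimage
      hA.nullMeasurableSet]
    congr 1
    ext x
    simp only [Pool.Agent.TH984.GBS.Sc, Set.mem_ofPred_eq, Set.mem_preimage]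
    rw [Fin.sum_univ_succ, Fin.forall_fin_succ, and_assoc]
    simp [MeasurableEquiv.piFinSuccAbove, Fin.tail]
  rw [← Pool.Agent.TH984.GBS.vol_Sc (n + 1) r hr, h1, Measure.volume_eq_prod,
    Measure.prod_apply_symm hA]
  refine lintegral_congr fun w => ?_
  by_cases hw : ∀ i, 0 ≤ w i
  · rw [Set.indicator_of_mem (by exact hw)]
    have h : (fun x => (x, w)) ⁻¹' {q : ℝ × (Fin n → ℝ) | 0 ≤ q.1 ∧ (∀ i, 0 ≤ q.2 i) ∧
        q.1 + ∑ i, q.2 i ≤ r} = Set.Icc 0 (r - ∑ i, w i) := by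
      ext t
      simp only [Set.mem_preimage, Set.mem_ofPred_eq, Set.mem_Icc]
      constructor
      · rintro ⟨h1, _, h3⟩
        exact ⟨h1, by linarith⟩
      · rintro ⟨h1, h3⟩
        exact ⟨h1, hw, by linarith⟩
    rw [h, Real.volume_Icc, sub_zero]
  · rw [Set.indicator_of_notMem (by exact hw)]
    have h : (fun x => (x, w)) ⁻¹' {q : ℝ × (Fin n → ℝ) | 0 ≤ q.1 ∧ (∀ i, 0 ≤ q.2 i) ∧
        q.1 + ∑ i, q.2 i ≤ r} = ∅ := by
      ext t
      simp only [Set.mem_preimage, Set.mem_ofPred_eq, Set.mem_empty_iff_false, iff_false]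
      rintro ⟨_, h2, _⟩
      exact hw h2
    rw [h, measure_empty]

theorem T_any (ι : Type) [Fintype ι] (r : ℝ) (hr : 0 ≤ r) :
    ∫⁻ w : ι → ℝ, Set.indicator {w | ∀ i, 0 ≤ w i} (fun w => ENNReal.ofReal (r - ∑ i, w i)) w =
      ENNReal.ofReal (r ^ (Fintype.card ι + 1) / (Fintype.card ι + 1).factorial) := by
  classical
  have e : Fin (Fintype.card ι) ≃ ι := (Fintype.equivFin ι).symm
  have hmp := volume_measurePreserving_piCongrLeft (fun _ : ι => ℝ) e
  have hGm : Measurable fun w : ι → ℝ => Set.indicator {w : ι → ℝ | ∀ i, 0 ≤ w i}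
      (fun w => ENNReal.ofReal (r - ∑ i, w i)) w := by
    refine Measurable.indicator ?_ ?_
    · exact ENNReal.measurable_ofReal.comp (measurable_const.sub
        (Finset.measurable_sum _ fun i _ => measurable_pi_apply i))
    · rw [show {s : ι → ℝ | ∀ i, 0 ≤ s i} = ⋂ i, {s | 0 ≤ s i} by ext; simp]
      exact MeasurableSet.iInter fun i => measurableSet_le measurable_const (measurable_pi_apply i)
  rw [← T_fin (Fintype.card ι) r hr, ← hmp.lintegral_comp hGm]
  refine lintegral_congr fun x => ?_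
  have happ : ∀ i, (MeasurableEquiv.piCongrLeft (fun _ : ι => ℝ) e) x (e i) = x i := by
    intro i
    exact Equiv.piCongrLeft_apply_apply (P := fun _ : ι => ℝ) e x i
  have hsum : ∑ i, (MeasurableEquiv.piCongrLeft (fun _ : ι => ℝ) e) x i = ∑ i, x i := by
    rw [← Equiv.sum_comp e]
    exact Finset.sum_congr rfl fun i _ => happ i
  have hiff : (∀ i, 0 ≤ (MeasurableEquiv.piCongrLeft (fun _ : ι => ℝ) e) x i) ↔ ∀ i, 0 ≤ x i := by
    constructor
    · intro h i
      rw [← happ i]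
      exact h (e i)
    · intro h i
      obtain ⟨j, rfl⟩ := e.surjective i
      rw [happ j]
      exact h j
  by_cases hx : ∀ i, 0 ≤ x i
  · rw [Set.indicator_of_mem (by exact hiff.2 hx), Set.indicator_of_mem (by exact hx), hsum]
  · rw [Set.indicator_of_notMem (by exact fun h => hx (hiff.1 h)),
      Set.indicator_of_notMem (by exact hx)]

theorem bath_of (T : ∀ (ι : Type) [Fintype ι] (r : ℝ), 0 ≤ r →
      ∫⁻ w : ι → ℝ, Set.indicator {w | ∀ i, 0 ≤ w i} (fun w => ENNReal.ofReal (r - ∑ i, w i)) w =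
        ENNReal.ofReal (r ^ (Fintype.card ι + 1) / (Fintype.card ι + 1).factorial))
    {n : ℕ} (J : Finset (Fin n)) (K : Set (Fin n → ℝ)) (hK : MeasurableSet K)
    (hb : Bornology.IsBounded K) (h0 : ∀ y ∈ K, ∀ i, 0 ≤ y i)
    (hJ : ∀ y ∈ K, ∑ i ∈ J, y i ≤ J.card + 1)
    (hc : ∀ i, ∫ y in K, y i = volume.real K) :
    volume.real K ≤ bd J.card Jᶜ.card := by
  classical
  set m := J.card with hm
  set z := Jᶜ.card with hz
  -- finite measure and integrability
  have hfin : volume K ≠ ⊤ := hb.measure_lt_top.ne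
  have hint : ∀ i, IntegrableOn (fun y : Fin n → ℝ => y i) K := by
    intro i
    obtain ⟨R, hR⟩ := hb.exists_norm_le
    refine Measure.integrableOn_of_bounded (M := R) hfin
      (measurable_pi_apply i).aestronglyMeasurable ?_
    refine (ae_restrict_iff' hK).2 (Filter.Eventually.of_forall fun y hy => ?_)
    exact (norm_le_pi_norm y i).trans (hR y hy)
  have hintc : IntegrableOn (fun _ : Fin n → ℝ => ((z : ℝ) + 1)) K :=
    integrableOn_const hfin
  have hsum : IntegrableOn (fun y : Fin n → ℝ => ∑ i ∈ Jᶜ, y i) K :=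
    integrable_finsetSum _ fun i _ => hint i
  have hf : IntegrableOn (fun y : Fin n → ℝ => (z : ℝ) + 1 - ∑ i ∈ Jᶜ, y i) K := hintc.sub hsum
  have hval : ∫ y in K, ((z : ℝ) + 1 - ∑ i ∈ Jᶜ, y i) = volume.real K := by
    rw [integral_sub hintc hsum, integral_finsetSum _ fun i _ => hint i,
      Finset.sum_congr rfl fun i _ => hc i, setIntegral_const, Finset.sum_const, smul_eq_mul,
      nsmul_eq_mul]
    ring
  have hle : volume.real K ≤ (∫⁻ y in K, ENNReal.ofReal ((z : ℝ) + 1 - ∑ i ∈ Jᶜ, y i)).toReal := by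
    rw [← hval, integral_eq_lintegral_pos_part_sub_lintegral_neg_part hf]
    exact sub_le_self _ ENNReal.toReal_nonneg
  -- the product
  have hmp := volume_preserving_piEquivPiSubtypeProd (fun _ : Fin n => ℝ) (fun i => i ∈ J)
  set F : ({i // i ∈ J} → ℝ) → ENNReal :=
    Set.indicator {s | (∀ i, 0 ≤ s i) ∧ ∑ i, s i ≤ (m : ℝ) + 1} (fun _ => 1) with hF
  set G : ({i // ¬ i ∈ J} → ℝ) → ENNReal :=
    Set.indicator {w | ∀ i, 0 ≤ w i} (fun w => ENNReal.ofReal ((z : ℝ) + 1 - ∑ i, w i)) with hG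
  have hFm : Measurable F := measurable_const.indicator (meas_closed _ _)
  have hGm : Measurable G := by
    refine Measurable.indicator ?_ ?_
    · exact ENNReal.measurable_ofReal.comp (measurable_const.sub
        (Finset.measurable_sum _ fun i _ => measurable_pi_apply i))
    · rw [show {s : {i // ¬ i ∈ J} → ℝ | ∀ i, 0 ≤ s i} = ⋂ i, {s | 0 ≤ s i} by ext; simp]
      exact MeasurableSet.iInter fun i => measurableSet_le measurable_const (measurable_pi_apply i)
  have hsJ : ∀ y : Fin n → ℝ, ∑ i : {i // i ∈ J}, y i = ∑ i ∈ J, y i := fun y =>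
    Finset.sum_coe_sort J y
  have hsC : ∀ y : Fin n → ℝ, ∑ i : {i // ¬ i ∈ J}, y i = ∑ i ∈ Jᶜ, y i := fun y =>
    (Finset.sum_subtype Jᶜ (p := fun i => ¬ i ∈ J) (by simp) y).symm
  have hcardJ : Fintype.card {i // i ∈ J} = m := Fintype.card_coe J
  have hcardC : Fintype.card {i // ¬ i ∈ J} = z := by
    rw [hz, Fintype.card_subtype_compl, Finset.card_compl, Fintype.card_coe]
  have hbound : ∫⁻ y in K, ENNReal.ofReal ((z : ℝ) + 1 - ∑ i ∈ Jᶜ, y i) ≤
      ∫⁻ y : Fin n → ℝ, F (fun i => y i) * G (fun i => y i) := by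
    rw [← lintegral_indicator hK]
    refine lintegral_mono fun y => ?_
    by_cases hy : y ∈ K
    · rw [Set.indicator_of_mem hy]
      have h1 : F (fun i => y i) = 1 := by
        rw [hF, Set.indicator_of_mem]
        exact ⟨fun i => h0 y hy i, by rw [hsJ]; exact hJ y hy⟩
      have h2 : G (fun i => y i) = ENNReal.ofReal ((z : ℝ) + 1 - ∑ i ∈ Jᶜ, y i) := by
        rw [hG, Set.indicator_of_mem, hsC]
        exact fun i => h0 y hy i
      rw [h1, h2, one_mul]
    · rw [Set.indicator_of_notMem hy]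
      exact zero_le
  have hprod : ∫⁻ y : Fin n → ℝ, F (fun i => y i) * G (fun i => y i) =
      ENNReal.ofReal (bd m z) := by
    have h1 : ∫⁻ y : Fin n → ℝ, F (fun i => y i) * G (fun i => y i) =
        ∫⁻ p : ({i // i ∈ J} → ℝ) × ({i // ¬ i ∈ J} → ℝ), F p.1 * G p.2 := by
      have h2 := hmp.lintegral_comp (f := fun p : ({i // i ∈ J} → ℝ) × ({i // ¬ i ∈ J} → ℝ) =>
        F p.1 * G p.2) (by fun_prop)
      refine Eq.trans ?_ (h2.trans ?_)
      · rfl
      · congr 5; exact Subsingleton.elim _ _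
    rw [h1, Measure.volume_eq_prod, lintegral_prod_mul hFm.aemeasurable hGm.aemeasurable, hG,
      T _ _ (by positivity), hF, lintegral_indicator_const (meas_closed _ _), one_mul,
      vol_closed _ _ (by positivity), hcardJ, hcardC, ← ENNReal.ofReal_mul (by positivity), bd]
    congr 2
    rw [Nat.factorial_succ, pow_succ]
    push_cast
    field_simp
  have hbd : 0 ≤ bd m z := by
    unfold bd
    positivity
  refine hle.trans (ENNReal.toReal_le_of_le_ofReal hbd ?_)
  exact hbound.trans hprod.le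

/-- The integral in the bound. -/
theorem lint_bd {n : ℕ} (J : Finset (Fin n)) :
    ∫⁻ y : Fin n → ℝ, Set.indicator
        {y : Fin n → ℝ | (∀ i, 0 ≤ y i) ∧ ∑ i ∈ J, y i ≤ (J.card : ℝ) + 1}
      (fun y => ENNReal.ofReal ((Jᶜ.card : ℝ) + 1 - ∑ i ∈ Jᶜ, y i)) y =
        ENNReal.ofReal (bd J.card Jᶜ.card) := by
  classical
  set m := J.card with hm
  set z := Jᶜ.card with hz
  have hmp := volume_preserving_piEquivPiSubtypeProd (fun _ : Fin n => ℝ) (fun i => i ∈ J)
  set F : ({i // i ∈ J} → ℝ) → ENNReal :=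
    Set.indicator {s | (∀ i, 0 ≤ s i) ∧ ∑ i, s i ≤ (m : ℝ) + 1} (fun _ => 1) with hF
  set G : ({i // ¬ i ∈ J} → ℝ) → ENNReal :=
    Set.indicator {w | ∀ i, 0 ≤ w i} (fun w => ENNReal.ofReal ((z : ℝ) + 1 - ∑ i, w i)) with hG
  have hFm : Measurable F := measurable_const.indicator (meas_closed _ _)
  have hGm : Measurable G := by
    refine Measurable.indicator ?_ ?_
    · exact ENNReal.measurable_ofReal.comp (measurable_const.sub
        (Finset.measurable_sum _ fun i _ => measurable_pi_apply i))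
    · rw [show {s : {i // ¬ i ∈ J} → ℝ | ∀ i, 0 ≤ s i} = ⋂ i, {s | 0 ≤ s i} by ext; simp]
      exact MeasurableSet.iInter fun i => measurableSet_le measurable_const (measurable_pi_apply i)
  have hsJ : ∀ y : Fin n → ℝ, ∑ i : {i // i ∈ J}, y i = ∑ i ∈ J, y i := fun y =>
    Finset.sum_coe_sort J y
  have hsC : ∀ y : Fin n → ℝ, ∑ i : {i // ¬ i ∈ J}, y i = ∑ i ∈ Jᶜ, y i := fun y =>
    (Finset.sum_subtype Jᶜ (p := fun i => ¬ i ∈ J) (by simp) y).symm
  have hcardJ : Fintype.card {i // i ∈ J} = m := Fintype.card_coe J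
  have hcardC : Fintype.card {i // ¬ i ∈ J} = z := by
    rw [hz, Fintype.card_subtype_compl, Finset.card_compl, Fintype.card_coe]
  have hpt : ∀ y : Fin n → ℝ, Set.indicator {y : Fin n → ℝ | (∀ i, 0 ≤ y i) ∧ ∑ i ∈ J, y i ≤ (m : ℝ) + 1}
      (fun y => ENNReal.ofReal ((z : ℝ) + 1 - ∑ i ∈ Jᶜ, y i)) y =
        F (fun i => y i) * G (fun i => y i) := by
    intro y
    by_cases hy : (∀ i, 0 ≤ y i) ∧ ∑ i ∈ J, y i ≤ (m : ℝ) + 1
    · rw [Set.indicator_of_mem (by exact hy)]
      have h1 : F (fun i => y i) = 1 := by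
        rw [hF, Set.indicator_of_mem]
        exact ⟨fun i => hy.1 i, by rw [hsJ]; exact hy.2⟩
      have h2 : G (fun i => y i) = ENNReal.ofReal ((z : ℝ) + 1 - ∑ i ∈ Jᶜ, y i) := by
        rw [hG, Set.indicator_of_mem, hsC]
        exact fun i => hy.1 i
      rw [h1, h2, one_mul]
    · rw [Set.indicator_of_notMem (by exact hy)]
      by_cases h1 : (∀ i : {i // i ∈ J}, 0 ≤ y i) ∧ ∑ i ∈ J, y i ≤ (m : ℝ) + 1
      · have h2 : ¬ ∀ i : {i // ¬ i ∈ J}, 0 ≤ y i := by
          intro h2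
          refine hy ⟨fun i => ?_, h1.2⟩
          by_cases hi : i ∈ J
          · exact h1.1 ⟨i, hi⟩
          · exact h2 ⟨i, hi⟩
        have h3 : G (fun i => y i) = 0 := by
          rw [hG, Set.indicator_of_notMem (by exact h2)]
        rw [h3, mul_zero]
      · have h3 : F (fun i => y i) = 0 := by
          rw [hF, Set.indicator_of_notMem]
          rintro ⟨h4, h5⟩
          rw [hsJ] at h5
          exact h1 ⟨h4, h5⟩
        rw [h3, zero_mul]
  rw [lintegral_congr hpt]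
  have h1 : ∫⁻ y : Fin n → ℝ, F (fun i => y i) * G (fun i => y i) =
      ∫⁻ p : ({i // i ∈ J} → ℝ) × ({i // ¬ i ∈ J} → ℝ), F p.1 * G p.2 := by
    have h2 := hmp.lintegral_comp (f := fun p : ({i // i ∈ J} → ℝ) × ({i // ¬ i ∈ J} → ℝ) =>
      F p.1 * G p.2) (by fun_prop)
    refine Eq.trans ?_ (h2.trans ?_)
    · rfl
    · congr 5; exact Subsingleton.elim _ _
  rw [h1, Measure.volume_eq_prod, lintegral_prod_mul hFm.aemeasurable hGm.aemeasurable, hG,
    T_any _ _ (by positivity), hF, lintegral_indicator_const (meas_closed _ _), one_mul,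
    vol_closed _ _ (by positivity), hcardJ, hcardC, ← ENNReal.ofReal_mul (by positivity), bd]
  congr 2
  rw [Nat.factorial_succ, pow_succ]
  push_cast
  field_simp

/-- TG2. The bound for the volume. -/
theorem bath {n : ℕ} (J : Finset (Fin n)) (K : Set (Fin n → ℝ)) (hK : MeasurableSet K)
    (hb : Bornology.IsBounded K) (h0 : ∀ y ∈ K, ∀ i, 0 ≤ y i)
    (hJ : ∀ y ∈ K, ∑ i ∈ J, y i ≤ J.card + 1)
    (hc : ∀ i, ∫ y in K, y i = volume.real K) :
    volume.real K ≤ bd J.card Jᶜ.card :=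
  bath_of T_any J K hK hb h0 hJ hc

end Pool.Agent.L5helper31.TG
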